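import Mathlib

/-!
# MP_3ba6b1_co : list colouring from unions of two colour pairs

The lists are unions of two distinct pairs of colours; the list graph has the pairs as vertices and
the lists as edges.  For all numbers `a`, `b` and every finite graph `H` we decide whether every
finite graph whose vertex set is the union of `a` induced forests and `b` independent sets can be
coloured from all lists whose list graph maps to `H`.
-/

set_option autoImplicit false

namespace Pool.Agent.Results.MP_3ba6b1_co.ForestPartitions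

universe u w

/-- `G` has a proper colouring in which every vertex `v` gets a colour from its list `L v`. -/
def ListColourable {V : Type*} {C : Type*} (G : SimpleGraph V) (L : V → Set C) : Prop :=
  ∃ c : V → C, (∀ v, c v ∈ L v) ∧ ∀ u v, G.Adj u v → c u ≠ c v

/-- `P` is a partition of the colours into blocks of size two (the pairs), and every list is the
union of two distinct pairs. -/
def PairStructured {V : Type*} {C : Type*} (P : Set (Set C)) (L : V → Set C) : Prop :=
  Setoid.IsPartition P ∧ (∀ p ∈ P, p.ncard = 2) ∧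
    ∀ v, ∃ p ∈ P, ∃ q ∈ P, p ≠ q ∧ L v = p ∪ q

/-- The 2-list of pairs of the vertex `v`: the pairs contained in `L v`. -/
def pairs {V : Type*} {C : Type*} (P : Set (Set C)) (L : V → Set C) (v : V) : Set (Set C) :=
  {p | p ∈ P ∧ p ⊆ L v}

/-- The list graph: two distinct sets of colours are adjacent if they are pairs which lie
together in the list of one vertex. -/
def listGraph {V : Type*} {C : Type*} (P : Set (Set C)) (L : V → Set C) :
    SimpleGraph (Set C) :=
  SimpleGraph.fromRel fun p q => ∃ v, p ∈ pairs P L v ∧ q ∈ pairs P L v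

/-- A pair is odd if the vertices whose list contains it induce a graph that is not bipartite. -/
def OddPair {V : Type*} {C : Type*} (G : SimpleGraph V) (P : Set (Set C)) (L : V → Set C)
    (p : Set C) : Prop :=
  ¬ (G.induce {v | p ∈ pairs P L v}).Colorable 2

/-- The list graph on the odd pairs: two distinct sets of colours are adjacent if they are odd
pairs which lie together in the list of one vertex. -/
def oddListGraph {V : Type*} {C : Type*} (G : SimpleGraph V) (P : Set (Set C)) (L : V → Set C) :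
    SimpleGraph (Set C) :=
  SimpleGraph.fromRel fun p q =>
    OddPair G P L p ∧ OddPair G P L q ∧ ∃ v, p ∈ pairs P L v ∧ q ∈ pairs P L v

/-- The vertex set is the union of `a` sets which induce forests and `b` independent sets. -/
def HasPartition {V : Type*} (G : SimpleGraph V) (a b : ℕ) : Prop :=
  ∃ k : V → Fin a ⊕ Fin b, (∀ i, (G.induce {v | k v = Sum.inl i}).IsAcyclic) ∧
    ∀ u v j, k u = Sum.inr j → k v = Sum.inr j → ¬ G.Adj u v

/-- A graph is 2-choosable if it can be coloured from any lists with exactly two colours. -/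
def TwoChoosable {W : Type u} (H : SimpleGraph W) : Prop :=
  ∀ (D : Type w) (l : W → Set D), (∀ x, (l x).ncard = 2) → ListColourable H l

section

variable {V : Type u} {C : Type w}

/-! ### The pairs of a vertex -/

lemma block_unique {P : Set (Set C)} (hP : Setoid.IsPartition P) {p q : Set C} (hp : p ∈ P)
    (hq : q ∈ P) {x : C} (hxp : x ∈ p) (hxq : x ∈ q) : p = q :=
  (hP.2 x).unique ⟨hp, hxp⟩ ⟨hq, hxq⟩

lemma pairs_eq {P : Set (Set C)} {L : V → Set C} (hP : Setoid.IsPartition P) {v : V}
    {p q : Set C} (hp : p ∈ P) (hq : q ∈ P) (hL : L v = p ∪ q) : pairs P L v = {p, q} := by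
  ext r
  constructor
  · rintro ⟨hr, hrL⟩
    obtain ⟨x, hx⟩ := Setoid.nonempty_of_mem_partition hP hr
    have hx' := hrL hx
    rw [hL] at hx'
    rcases hx' with hx' | hx'
    · exact Or.inl (block_unique hP hr hp hx hx')
    · exact Or.inr (block_unique hP hr hq hx hx')
  · rintro (rfl | rfl)
    · exact ⟨hp, by rw [hL]; exact Set.subset_union_left⟩
    · exact ⟨hq, by rw [hL]; exact Set.subset_union_right⟩

lemma pairs_ncard {P : Set (Set C)} {L : V → Set C} (h : PairStructured P L) (v : V) :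
    (pairs P L v).ncard = 2 := by
  obtain ⟨p, hp, q, hq, hne, hL⟩ := h.2.2 v
  rw [pairs_eq h.1 hp hq hL]
  exact Set.ncard_pair hne

/-- A sign on the colours which separates the two elements of each pair. -/
lemma exists_sign {P : Set (Set C)} (hP : Setoid.IsPartition P) (h2 : ∀ p ∈ P, p.ncard = 2) :
    ∃ s : C → Bool, (∀ p ∈ P, ∀ b, ∃ x ∈ p, s x = b) ∧
      ∀ p ∈ P, ∀ x ∈ p, ∀ y ∈ p, s x = s y → x = y := by
  classical
  have hb : ∀ x : C, ∃ p ∈ P, x ∈ p := fun x => (hP.2 x).exists
  choose b hbP hbx using hb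
  have ha : ∀ x : C, ∃ y, y ∈ b x := fun x => ⟨x, hbx x⟩
  -- a chosen element of each block
  let a : Set C → Option C := fun p => if h : p.Nonempty then some h.some else none
  have haS : ∀ p ∈ P, ∃ z ∈ p, a p = some z := by
    intro p hp
    have hne := Setoid.nonempty_of_mem_partition hP hp
    exact ⟨hne.some, hne.some_mem, by simp [a, hne]⟩
  refine ⟨fun x => decide (a (b x) = some x), ?_, ?_⟩
  · intro p hp c
    obtain ⟨z, hz, hpz⟩ := haS p hp
    obtain ⟨x, y, hxy, hpp⟩ := Set.ncard_eq_two.mp (h2 p hp)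
    have hbp : ∀ t ∈ p, b t = p := fun t ht => block_unique hP (hbP t) hp (hbx t) ht
    cases c with
    | true => exact ⟨z, hz, by simp [hbp z hz, hpz]⟩
    | false =>
      have : ∃ t ∈ p, t ≠ z := by
        by_cases hxz : x = z
        · exact ⟨y, by rw [hpp]; simp, fun h => hxy (hxz.trans h.symm)⟩
        · exact ⟨x, by rw [hpp]; simp, hxz⟩
      obtain ⟨t, ht, htz⟩ := this
      refine ⟨t, ht, ?_⟩
      simp only [hbp t ht, hpz, Option.some.injEq, decide_eq_false_iff_not]
      exact fun h => htz h.symm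
  · intro p hp x hx y hy hxy
    obtain ⟨z, hz, hpz⟩ := haS p hp
    obtain ⟨x', y', hxy', hpp⟩ := Set.ncard_eq_two.mp (h2 p hp)
    have hbp : ∀ t ∈ p, b t = p := fun t ht => block_unique hP (hbP t) hp (hbx t) ht
    simp only [hbp x hx, hbp y hy, hpz, Option.some.injEq, decide_eq_decide] at hxy
    by_contra hne
    have hx1 : z ≠ x := fun h => hne (h.symm.trans (hxy.mp h))
    have hy1 : z ≠ y := fun h => hne ((hxy.mpr h).symm.trans h)
    rw [hpp] at hx hy hz
    simp only [Set.mem_insert_iff, Set.mem_singleton_iff] at hx hy hz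
    rcases hx with rfl | rfl <;> rcases hy with rfl | rfl <;> rcases hz with rfl | rfl <;>
      simp_all

/-! ### The reformulation -/

lemma colourable_iff {P : Set (Set C)} {L : V → Set C} (h : PairStructured P L)
    (G : SimpleGraph V) :
    ListColourable G L ↔ ∃ A : Set V,
      ListColourable (G.induce A) (fun v => pairs P L v) ∧
      ListColourable (G.induce Aᶜ) (fun v => pairs P L v) := by
  classical
  obtain ⟨s, hs1, hs2⟩ := exists_sign h.1 h.2.1
  constructor
  · rintro ⟨c, hcL, hcG⟩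
    have hb : ∀ v, ∃ p ∈ pairs P L v, c v ∈ p := by
      intro v
      obtain ⟨p, hp, q, hq, -, hL⟩ := h.2.2 v
      have := hcL v
      rw [hL] at this
      rw [pairs_eq h.1 hp hq hL]
      rcases this with h1 | h1
      · exact ⟨p, by simp, h1⟩
      · exact ⟨q, by simp, h1⟩
    choose f hf hfc using hb
    have key : ∀ u v, G.Adj u v → s (c u) = s (c v) → f u ≠ f v := by
      intro u v huv hsuv hfuv
      apply hcG u v huv
      exact hs2 (f u) (hf u).1 _ (hfc u) _ (hfuv ▸ hfc v) hsuv
    refine ⟨{v | s (c v) = true}, ⟨fun v => f v, fun v => hf v, ?_⟩,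
      ⟨fun v => f v, fun v => hf v, ?_⟩⟩
    · intro u v huv
      exact key u v huv (u.2.trans v.2.symm)
    · intro u v huv
      have hu : s (c u) = false := Bool.eq_false_iff.mpr fun hh => u.2 hh
      have hv : s (c v) = false := Bool.eq_false_iff.mpr fun hh => v.2 hh
      exact key u v huv (hu.trans hv.symm)
  · rintro ⟨A, ⟨f, hf, hfG⟩, ⟨g, hg, hgG⟩⟩
    let F : V → Set C := fun v => if hv : v ∈ A then f ⟨v, hv⟩ else g ⟨v, hv⟩
    have hF : ∀ v, F v ∈ pairs P L v := by
      intro v
      by_cases hv : v ∈ A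
      · simpa [F, hv] using hf ⟨v, hv⟩
      · simpa [F, hv] using hg ⟨v, hv⟩
    have hex : ∀ v, ∃ x ∈ F v, s x = decide (v ∈ A) := fun v => hs1 (F v) (hF v).1 _
    choose c hc hcs using hex
    refine ⟨c, fun v => (hF v).2 (hc v), ?_⟩
    intro u v huv he
    have h1 : decide (u ∈ A) = decide (v ∈ A) := by rw [← hcs u, ← hcs v, he]
    have h2 : F u = F v := block_unique h.1 (hF u).1 (hF v).1 (hc u) (he ▸ hc v)
    rw [decide_eq_decide] at h1
    by_cases hu : u ∈ A
    · have hv : v ∈ A := h1.mp hu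
      have := hfG ⟨u, hu⟩ ⟨v, hv⟩ huv
      simp only [F, hu, hv, dite_true] at h2
      exact this h2
    · have hv : v ∉ A := fun hv => hu (h1.mpr hv)
      have := hgG ⟨u, hu⟩ ⟨v, hv⟩ huv
      simp only [F, hu, hv, dite_false] at h2
      exact this h2

/-! ### Criteria in terms of a proper colouring -/

lemma of_classes {P : Set (Set C)} {L : V → Set C} (h : PairStructured P L)
    (G : SimpleGraph V) {K : Type*} (k : G.Coloring K) (h1 h2 : Set C → K)
    (hk : ∀ v, ∃ p ∈ pairs P L v, k v = h1 p ∨ k v = h2 p) : ListColourable G L := by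
  classical
  obtain ⟨s, hs1, hs2⟩ := exists_sign h.1 h.2.1
  choose F hF hkF using hk
  have hex : ∀ v, ∃ x ∈ F v, s x = decide (k v = h1 (F v)) := fun v => hs1 (F v) (hF v).1 _
  choose c hc hcs using hex
  refine ⟨c, fun v => (hF v).2 (hc v), ?_⟩
  intro u v huv he
  have e1 : decide (k u = h1 (F u)) = decide (k v = h1 (F v)) := by rw [← hcs u, ← hcs v, he]
  have e2 : F u = F v := block_unique h.1 (hF u).1 (hF v).1 (hc u) (he ▸ hc v)
  rw [decide_eq_decide] at e1
  have hne : k u ≠ k v := k.valid huv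
  have hu := hkF u
  have hv := hkF v
  rw [e2] at e1 hu
  by_cases hh : k v = h1 (F v)
  · exact hne ((e1.mpr hh).trans hh.symm)
  · have hh' : k u ≠ h1 (F v) := fun h => hh (e1.mp h)
    exact hne ((hu.resolve_left hh').trans (hv.resolve_left hh).symm)

lemma list_adj {P : Set (Set C)} {L : V → Set C} {v : V} {p q : Set C} (hne : p ≠ q)
    (hp : p ∈ pairs P L v) (hq : q ∈ pairs P L v) : (listGraph P L).Adj p q := by
  rw [listGraph, SimpleGraph.fromRel_adj]
  exact ⟨hne, Or.inl ⟨v, hp, hq⟩⟩

lemma of_four {P : Set (Set C)} {L : V → Set C} (h : PairStructured P L) (G : SimpleGraph V)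
    (h4 : G.Colorable 4) (h2 : (listGraph P L).Colorable 2) : ListColourable G L := by
  classical
  obtain ⟨k⟩ := h4
  obtain ⟨g⟩ := h2
  refine of_classes h G k (fun p => if g p = 0 then 0 else 2) (fun p => if g p = 0 then 1 else 3) ?_
  intro v
  obtain ⟨p, hp, q, hq, hne, hL⟩ := h.2.2 v
  have hpv : p ∈ pairs P L v := by rw [pairs_eq h.1 hp hq hL]; simp
  have hqv : q ∈ pairs P L v := by rw [pairs_eq h.1 hp hq hL]; simp
  have hg : g p ≠ g q := g.valid (list_adj hne hpv hqv)
  generalize k v = kv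
  generalize hgp : g p = a at hg
  generalize hgq : g q = b at hg
  have key : ∀ (a b : Fin 2) (kv : Fin 4), a ≠ b →
      ((kv = (if a = 0 then 0 else 2) ∨ kv = (if a = 0 then 1 else 3)) ∨
       (kv = (if b = 0 then 0 else 2) ∨ kv = (if b = 0 then 1 else 3))) := by decide
  rcases key a b kv hg with h1 | h1
  · exact ⟨p, hpv, by simpa only [hgp] using h1⟩
  · exact ⟨q, hqv, by simpa only [hgq] using h1⟩

lemma of_three {P : Set (Set C)} {L : V → Set C} (h : PairStructured P L) (G : SimpleGraph V)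
    (h4 : G.Colorable 3) (h2 : (listGraph P L).Colorable 3) : ListColourable G L := by
  classical
  obtain ⟨k⟩ := h4
  obtain ⟨g⟩ := h2
  refine of_classes h G k (fun p => g p + 1) (fun p => g p + 2) ?_
  intro v
  obtain ⟨p, hp, q, hq, hne, hL⟩ := h.2.2 v
  have hpv : p ∈ pairs P L v := by rw [pairs_eq h.1 hp hq hL]; simp
  have hqv : q ∈ pairs P L v := by rw [pairs_eq h.1 hp hq hL]; simp
  have hg : g p ≠ g q := g.valid (list_adj hne hpv hqv)
  generalize k v = kv
  generalize hgp : g p = a at hg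
  generalize hgq : g q = b at hg
  have key : ∀ (a b kv : Fin 3), a ≠ b →
      ((kv = a + 1 ∨ kv = a + 2) ∨ (kv = b + 1 ∨ kv = b + 2)) := by decide
  rcases key a b kv hg with h1 | h1
  · exact ⟨p, hpv, by simpa only [hgp] using h1⟩
  · exact ⟨q, hqv, by simpa only [hgq] using h1⟩

end

/-! ### Forests are 2-choosable -/

lemma forest_aux {W : Type*} [Finite W] {D : Type*} (l : W → Set D)
    (hl : ∀ x, (l x).ncard = 2) :
    ∀ (n : ℕ) (H : SimpleGraph W), H.IsAcyclic → H.edgeSet.ncard = n → ∀ (r : W) (a : D),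
      a ∈ l r → ∃ c : W → D, c r = a ∧ (∀ v, c v ∈ l v) ∧ ∀ u v, H.Adj u v → c u ≠ c v := by
  classical
  intro n
  induction n with
  | zero =>
    intro H _ hn r a ha
    have hfin : H.edgeSet.Finite := Set.toFinite _
    rw [Set.ncard_eq_zero hfin] at hn
    have hne : ∀ x, (l x).Nonempty := fun x =>
      Set.nonempty_of_ncard_ne_zero (by rw [hl x]; norm_num)
    refine ⟨fun x => if x = r then a else (hne x).some, by simp, ?_, ?_⟩
    · intro v
      by_cases hv : v = r
      · subst hv; simpa using ha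
      · simpa [hv] using (hne v).some_mem
    · intro u v huv
      have : s(u, v) ∈ H.edgeSet := huv
      rw [hn] at this
      exact absurd this (Set.notMem_empty _)
  | succ n ih =>
    intro H hH hn r a ha
    have hfin : H.edgeSet.Finite := Set.toFinite _
    have hne : H.edgeSet.Nonempty := Set.nonempty_of_ncard_ne_zero (by rw [hn]; omega)
    obtain ⟨e, he⟩ := hne
    induction e using Sym2.ind with
    | h x y =>
    have hxy : H.Adj x y := he
    -- remove the edge
    set H' : SimpleGraph W := H.deleteEdges {s(x, y)} with hH'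
    have hle : H' ≤ H := H.deleteEdges_le _
    have hac : H'.IsAcyclic := hH.anti hle
    have hcard : H'.edgeSet.ncard = n := by
      rw [hH', SimpleGraph.edgeSet_deleteEdges, Set.ncard_sdiff_singleton_of_mem he, hn]
      rfl
    have hbr : ¬ H'.Reachable x y := by
      have := (SimpleGraph.isAcyclic_iff_forall_adj_isBridge.mp hH) hxy
      rw [SimpleGraph.isBridge_iff] at this
      simpa [hH'] using this
    have two : ∀ (t : W) (d : D), ∃ b ∈ l t, b ≠ d := by
      intro t d
      obtain ⟨b1, b2, hb, hlt⟩ := Set.ncard_eq_two.mp (hl t)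
      by_cases h1 : b1 = d
      · exact ⟨b2, by rw [hlt]; simp, fun h => hb (h1.trans h.symm)⟩
      · exact ⟨b1, by rw [hlt]; simp, h1⟩
    -- the step for an oriented edge with `r` not in the part of the second end
    have step : ∀ p q : W, H.Adj p q → (∀ u v, H.Adj u v → ¬ H'.Adj u v →
        (u = p ∧ v = q) ∨ (u = q ∧ v = p)) → ¬ H'.Reachable p q → ¬ H'.Reachable q r →
        ∃ c : W → D, c r = a ∧ (∀ v, c v ∈ l v) ∧ ∀ u v, H.Adj u v → c u ≠ c v := by
      intro p q hpq honly hnr hqr
      obtain ⟨c1, h1r, h1l, h1g⟩ := ih H' hac hcard r a ha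
      obtain ⟨b, hb, hbne⟩ := two q (c1 p)
      obtain ⟨c2, h2r, h2l, h2g⟩ := ih H' hac hcard q b hb
      refine ⟨fun v => if H'.Reachable q v then c2 v else c1 v, ?_, ?_, ?_⟩
      · simp [hqr, h1r]
      · intro v
        by_cases hv : H'.Reachable q v
        · simpa [hv] using h2l v
        · simpa [hv] using h1l v
      · intro u v huv
        by_cases hadj : H'.Adj u v
        · by_cases hu : H'.Reachable q u
          · have hv : H'.Reachable q v := hu.trans hadj.reachable
            simpa [hu, hv] using h2g u v hadj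
          · have hv : ¬ H'.Reachable q v := fun hv => hu (hv.trans hadj.symm.reachable)
            simpa [hu, hv] using h1g u v hadj
        · have hqp : ¬ H'.Reachable q p := fun hh => hnr hh.symm
          have hqq : H'.Reachable q q := SimpleGraph.Reachable.refl q
          rcases honly u v huv hadj with ⟨rfl, rfl⟩ | ⟨rfl, rfl⟩
          · simp only [hqp, hqq, if_true, if_false]
            rw [h2r]
            exact hbne.symm
          · simp only [hqp, hqq, if_true, if_false]
            rw [h2r]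
            exact hbne
    have only : ∀ u v, H.Adj u v → ¬ H'.Adj u v → (u = x ∧ v = y) ∨ (u = y ∧ v = x) := by
      intro u v huv hnot
      by_contra hcon
      apply hnot
      rw [hH', SimpleGraph.deleteEdges_adj]
      refine ⟨huv, ?_⟩
      simp only [Set.mem_singleton_iff, Sym2.eq_iff]
      exact hcon
    by_cases hyr : H'.Reachable y r
    · -- then `x` is not connected with `r`
      have hxr : ¬ H'.Reachable x r := fun hh => hbr (hh.trans hyr.symm)
      refine step y x hxy.symm ?_ (fun hh => hbr hh.symm) hxr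
      intro u v huv hnot
      exact (only u v huv hnot).symm
    · exact step x y hxy only hbr hyr

/-- Finite forests are 2-choosable. -/
lemma forest_twoChoosable {W : Type u} [Finite W] (H : SimpleGraph W) (hH : H.IsAcyclic) :
    TwoChoosable.{u, w} H := by
  intro D l hl
  rcases isEmpty_or_nonempty W with hW | ⟨⟨r⟩⟩
  · exact ⟨fun x => (hW.false x).elim, fun x => (hW.false x).elim, fun x => (hW.false x).elim⟩
  · have hne : (l r).Nonempty := Set.nonempty_of_ncard_ne_zero (by rw [hl r]; norm_num)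
    obtain ⟨a, ha⟩ := hne
    obtain ⟨c, -, hc, hg⟩ := forest_aux l hl _ H hH rfl r a ha
    exact ⟨c, hc, hg⟩

/-! ### Graphs with few colour classes -/

lemma of_two {V : Type u} {C : Type w} {P : Set (Set C)} {L : V → Set C}
    (h : PairStructured P L) (G : SimpleGraph V) (hG : G.Colorable 2) : ListColourable G L := by
  obtain ⟨k⟩ := hG
  refine of_classes h G k (fun _ => 0) (fun _ => 1) ?_
  intro x
  obtain ⟨p', hp', q', hq', -, hL'⟩ := h.2.2 x
  refine ⟨p', by rw [pairs_eq h.1 hp' hq' hL']; simp, ?_⟩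
  have key : ∀ a : Fin 2, a = 0 ∨ a = 1 := by decide
  exact key _

/-! ### The standard model: colours `I × Bool`, lists given by edges of a graph on `I` -/

/-- The pairs `{(a, true), (a, false)}`. -/
def stdPairs (I : Type) : Set (Set (I × Bool)) := {s | ∃ a, s = {x | x.1 = a}}

/-- The list which is the union of the pairs of the two elements of `e`. -/
def stdList {I : Type} (e : I × I) : Set (I × Bool) := {x | x.1 = e.1 ∨ x.1 = e.2}

lemma std_inj {I : Type} {a b : I} (h : ({x | x.1 = a} : Set (I × Bool)) = {x | x.1 = b}) :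
    a = b := by
  have : (a, true) ∈ ({x | x.1 = a} : Set (I × Bool)) := rfl
  rw [h] at this
  exact this

lemma std_pair {I V : Type} (l : V → I × I) (hl : ∀ v, (l v).1 ≠ (l v).2) :
    PairStructured (stdPairs I) (fun v => stdList (l v)) := by
  refine ⟨⟨?_, ?_⟩, ?_, ?_⟩
  · rintro ⟨a, ha⟩
    have : (a, true) ∈ ({x | x.1 = a} : Set (I × Bool)) := rfl
    rw [← ha] at this
    exact this
  · intro x
    refine ⟨{y | y.1 = x.1}, ⟨⟨x.1, rfl⟩, rfl⟩, ?_⟩
    rintro b ⟨⟨a, rfl⟩, hx⟩
    have hx' : x.1 = a := hx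
    rw [hx']
  · rintro p ⟨a, rfl⟩
    have : ({x | x.1 = a} : Set (I × Bool)) = {(a, true), (a, false)} := by
      ext ⟨i, b⟩
      constructor
      · intro h
        have h' : i = a := h
        subst h'
        cases b <;> simp
      · intro h
        simp only [Set.mem_insert_iff, Set.mem_singleton_iff, Prod.mk.injEq] at h
        rcases h with h | h <;> exact h.1
    rw [this]
    exact Set.ncard_pair (by simp)
  · intro v
    exact ⟨_, ⟨(l v).1, rfl⟩, _, ⟨(l v).2, rfl⟩, fun h => hl v (std_inj h), rfl⟩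

lemma std_hom {I V : Type} [Nonempty V] (H : SimpleGraph I) (l : V → I × I)
    (hl : ∀ v, H.Adj (l v).1 (l v).2) :
    Nonempty (listGraph (stdPairs I) (fun v => stdList (l v)) →g H) := by
  classical
  obtain ⟨v₀⟩ := ‹Nonempty V›
  let g : Set (I × Bool) → I := fun s =>
    if h : ∃ a, s = {x | x.1 = a} then h.choose else (l v₀).1
  have hg : ∀ a : I, g {x | x.1 = a} = a := by
    intro a
    have hs' : ∃ b, ({x | x.1 = a} : Set (I × Bool)) = {x : I × Bool | x.1 = b} := ⟨a, rfl⟩
    have h1 : g {x | x.1 = a} = hs'.choose := by simp only [g, hs', dite_true]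
    rw [h1, ← std_inj hs'.choose_spec]
  have key : ∀ (a b : I) (v : V), a ≠ b →
      ({x | x.1 = a} : Set (I × Bool)) ⊆ stdList (l v) →
      ({x | x.1 = b} : Set (I × Bool)) ⊆ stdList (l v) → H.Adj a b := by
    intro a b v hab ha hb
    have ha' : a = (l v).1 ∨ a = (l v).2 := ha (show (a, true) ∈ {x : I × Bool | x.1 = a} from rfl)
    have hb' : b = (l v).1 ∨ b = (l v).2 := hb (show (b, true) ∈ {x : I × Bool | x.1 = b} from rfl)
    rcases ha' with rfl | rfl <;> rcases hb' with rfl | rfl
    · exact absurd rfl hab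
    · exact hl v
    · exact (hl v).symm
    · exact absurd rfl hab
  have main : ∀ s t : Set (I × Bool), s ≠ t → (∃ v, s ∈ pairs (stdPairs I)
      (fun v => stdList (l v)) v ∧ t ∈ pairs (stdPairs I) (fun v => stdList (l v)) v) →
      H.Adj (g s) (g t) := by
    rintro s t hne ⟨v, ⟨⟨a, rfl⟩, ha⟩, ⟨⟨b, rfl⟩, hb⟩⟩
    rw [hg, hg]
    exact key a b v (fun h => hne (by rw [h])) ha hb
  refine ⟨⟨g, ?_⟩⟩
  intro s t hst
  rw [listGraph, SimpleGraph.fromRel_adj] at hst
  obtain ⟨hne, hst⟩ := hst
  rcases hst with hst | hst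
  · exact main s t hne hst
  · exact (main t s hne.symm hst).symm

/-! ### The extremal graphs -/

/-- The part (one of `a` forests or one of `b` independent sets) of a symbol. -/
def part {a b : ℕ} : (Fin a × Bool) ⊕ Fin b → Fin a ⊕ Fin b
  | Sum.inl x => Sum.inl x.1
  | Sum.inr j => Sum.inr j

/-- The extremal graph: each forest is a matching with one edge for each ordered edge of `H`, each
independent set is a copy of the set of ordered edges of `H`, different parts are joined
completely. -/
def extGraph {I : Type} (H : SimpleGraph I) (a b : ℕ) :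
    SimpleGraph (((Fin a × Bool) ⊕ Fin b) × {p : I × I // H.Adj p.1 p.2}) where
  Adj x y := part x.1 ≠ part y.1 ∨ (x.1 ≠ y.1 ∧ x.2 = y.2)
  symm := ⟨fun _ _ h => h.imp (fun h => h.symm) fun h => ⟨h.1.symm, h.2.symm⟩⟩
  loopless := ⟨fun _ h => h.elim (fun h => h rfl) fun h => h.1 rfl⟩

lemma matching_acyclic {W : Type*} (F : SimpleGraph W)
    (h : ∀ x y z, F.Adj x y → F.Adj x z → y = z) : F.IsAcyclic := fun _ c hc =>
  hc.snd_ne_penultimate (h _ _ _ (c.adj_snd hc.not_nil) (c.adj_penultimate hc.not_nil).symm)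

lemma ext_partition {I : Type} (H : SimpleGraph I) (a b : ℕ) :
    HasPartition (extGraph H a b) a b := by
  refine ⟨fun x => part x.1, ?_, ?_⟩
  · intro i
    apply matching_acyclic
    rintro ⟨⟨s, e⟩, hs⟩ ⟨⟨t, f⟩, ht⟩ ⟨⟨r, g⟩, hr⟩ hst hsr
    have hs' : part s = Sum.inl i := hs
    have ht' : part t = Sum.inl i := ht
    have hr' : part r = Sum.inl i := hr
    have h1 : s ≠ t ∧ e = f := by
      rcases (show part s ≠ part t ∨ (s ≠ t ∧ e = f) from hst) with h | h
      · exact absurd (hs'.trans ht'.symm) h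
      · exact h
    have h2 : s ≠ r ∧ e = g := by
      rcases (show part s ≠ part r ∨ (s ≠ r ∧ e = g) from hsr) with h | h
      · exact absurd (hs'.trans hr'.symm) h
      · exact h
    have key : ∀ x : (Fin a × Bool) ⊕ Fin b, part x = Sum.inl i → ∃ c, x = Sum.inl (i, c) := by
      rintro (⟨i', c⟩ | j) hx
      · simp only [part, Sum.inl.injEq] at hx
        exact ⟨c, by rw [hx]⟩
      · exact absurd hx (by simp [part])
    obtain ⟨c1, rfl⟩ := key s hs'
    obtain ⟨c2, rfl⟩ := key t ht'
    obtain ⟨c3, rfl⟩ := key r hr'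
    have h3 : c1 ≠ c2 := fun h => h1.1 (by rw [h])
    have h4 : c1 ≠ c3 := fun h => h2.1 (by rw [h])
    have h5 : c2 = c3 := by
      revert h3 h4
      revert c1 c2 c3
      intro c1 c2 c3
      cases c1 <;> cases c2 <;> cases c3 <;> simp
    subst h5
    have h6 : f = g := h1.2.symm.trans h2.2
    subst h6
    rfl
  · rintro ⟨s, e⟩ ⟨t, f⟩ j hs ht h
    have hst : s = t := by
      rcases s with ⟨i, b⟩ | j' <;> rcases t with ⟨i', b'⟩ | j''
      · exact absurd hs (by simp [part])
      · exact absurd hs (by simp [part])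
      · exact absurd ht (by simp [part])
      · simp only [part, Sum.inr.injEq] at hs ht
        rw [hs, ht]
    subst hst
    rcases h with h | h
    · exact h rfl
    · exact h.1 rfl

lemma ext_not {I : Type} [Finite I] (H : SimpleGraph I) (a b : ℕ)
    (hc : ListColourable (extGraph H a b) (fun x => stdList x.2.1)) :
    a + b ≤ 2 ∨ (a = 0 ∧ b = 3 ∧ H.Colorable 3) ∨ (2 * a + b ≤ 4 ∧ H.Colorable 2) ∨ H = ⊥ := by
  classical
  have := Fintype.ofFinite I
  obtain ⟨c, hcL, hcG⟩ := hc
  let S : Fin a ⊕ Fin b → Finset (I × Bool) := fun s =>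
    Finset.univ.filter fun x => ∃ y, part y.1 = s ∧ c y = x
  have hS : ∀ s x, x ∈ S s ↔ ∃ y, part y.1 = s ∧ c y = x := by
    intro s x
    simp [S]
  have hdisj : ∀ s s', s ≠ s' → Disjoint (S s) (S s') := by
    intro s s' hss
    rw [Finset.disjoint_left]
    intro x hx hx'
    rw [hS] at hx hx'
    obtain ⟨y, hy, hyx⟩ := hx
    obtain ⟨y', hy', hyx'⟩ := hx'
    refine hcG y y' (Or.inl ?_) (hyx.trans hyx'.symm)
    rw [hy, hy']
    exact hss
  let Q : I → I → Finset (I × Bool) := fun j j' => {(j, true), (j, false), (j', true), (j', false)}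
  have hQ : ∀ j j' (x : I × Bool), x.1 = j ∨ x.1 = j' → x ∈ Q j j' := by
    rintro j j' ⟨x, β⟩ (h | h)
    · have h' : x = j := h
      subst h'
      cases β <;> simp [Q]
    · have h' : x = j' := h
      subst h'
      cases β <;> simp [Q]
  have hsum : ∀ j j', ∑ s, (S s ∩ Q j j').card ≤ 4 := by
    intro j j'
    have h1 : ∑ s, (S s ∩ Q j j').card =
        ((Finset.univ : Finset (Fin a ⊕ Fin b)).biUnion fun s => S s ∩ Q j j').card := by
      rw [Finset.card_biUnion]
      intro s _ s' _ hss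
      exact (hdisj s s' hss).mono Finset.inter_subset_left Finset.inter_subset_left
    rw [h1]
    refine (Finset.card_le_card (t := Q j j') ?_).trans Finset.card_le_four
    rw [Finset.biUnion_subset]
    intro s _
    exact Finset.inter_subset_right
  have hX : ∀ (j j' : I) (_ : H.Adj j j') (k : Fin b), 1 ≤ (S (Sum.inr k) ∩ Q j j').card := by
    intro j j' hjj k
    have hx := hcL (Sum.inr k, ⟨(j, j'), hjj⟩)
    apply Finset.card_pos.mpr
    refine ⟨c (Sum.inr k, ⟨(j, j'), hjj⟩), ?_⟩
    rw [Finset.mem_inter, hS]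
    exact ⟨⟨_, rfl, rfl⟩, hQ _ _ _ hx⟩
  have hF : ∀ (j j' : I) (_ : H.Adj j j') (i : Fin a), 2 ≤ (S (Sum.inl i) ∩ Q j j').card := by
    intro j j' hjj i
    have hx0 := hcL (Sum.inl (i, false), ⟨(j, j'), hjj⟩)
    have hx1 := hcL (Sum.inl (i, true), ⟨(j, j'), hjj⟩)
    have hne := hcG (Sum.inl (i, false), ⟨(j, j'), hjj⟩) (Sum.inl (i, true), ⟨(j, j'), hjj⟩)
      (Or.inr ⟨by simp, rfl⟩)
    apply Finset.one_lt_card.mpr
    refine ⟨_, ?_, _, ?_, hne⟩
    · rw [Finset.mem_inter, hS]
      exact ⟨⟨_, rfl, rfl⟩, hQ _ _ _ hx0⟩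
    · rw [Finset.mem_inter, hS]
      exact ⟨⟨_, rfl, rfl⟩, hQ _ _ _ hx1⟩
  have hFsum : ∀ (j j' : I) (_ : H.Adj j j'), a * 2 ≤ ∑ i : Fin a, (S (Sum.inl i) ∩ Q j j').card := by
    intro j j' hjj
    have := Finset.card_nsmul_le_sum Finset.univ (fun i : Fin a => (S (Sum.inl i) ∩ Q j j').card) 2
      (fun i _ => hF j j' hjj i)
    simpa using this
  have hXsum : ∀ (j j' : I) (_ : H.Adj j j'), b ≤ ∑ k : Fin b, (S (Sum.inr k) ∩ Q j j').card := by
    intro j j' hjj
    have := Finset.card_nsmul_le_sum Finset.univ (fun k : Fin b => (S (Sum.inr k) ∩ Q j j').card) 1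
      (fun k _ => hX j j' hjj k)
    simpa using this
  have hXsum' : ∀ (j j' : I) (_ : H.Adj j j') (k : Fin b), 1 < (S (Sum.inr k) ∩ Q j j').card →
      b < ∑ k : Fin b, (S (Sum.inr k) ∩ Q j j').card := by
    intro j j' hjj k hk
    have := Finset.sum_lt_sum (s := Finset.univ) (f := fun _ : Fin b => 1)
      (g := fun k : Fin b => (S (Sum.inr k) ∩ Q j j').card)
      (fun k _ => hX j j' hjj k) ⟨k, Finset.mem_univ _, hk⟩
    simpa using this
  by_cases hab : a + b ≤ 2
  · exact Or.inl hab
  by_cases hH : H = ⊥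
  · exact Or.inr (Or.inr (Or.inr hH))
  obtain ⟨j₀, j₀', hjj₀⟩ : ∃ j j', H.Adj j j' := by
    by_contra hno
    push Not at hno
    apply hH
    ext x y
    simp [hno x y]
  have h4 : 2 * a + b ≤ 4 := by
    have h1 := hsum j₀ j₀'
    rw [Fintype.sum_sum_type] at h1
    have h2 := hFsum j₀ j₀' hjj₀
    have h3 := hXsum j₀ j₀' hjj₀
    omega
  refine Or.inr ?_
  by_cases h3 : a = 0 ∧ b = 3
  · obtain ⟨ha, hb⟩ := h3
    subst hb
    refine Or.inl ⟨ha, rfl, ?_⟩
    let N : I → Finset (Fin 3) := fun j => Finset.univ.filter fun k => ∀ β, (j, β) ∉ S (Sum.inr k)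
    have hN : ∀ j k, k ∈ N j ↔ ∀ β, (j, β) ∉ S (Sum.inr k) := by
      intro j k
      simp [N]
    have hex : ∀ j, ∃ k, k ∈ N j := by
      intro j
      by_contra hno
      push Not at hno
      have h5 : ∀ k : Fin 3, ∃ β, (j, β) ∈ S (Sum.inr k) := by
        intro k
        have := hno k
        rw [hN] at this
        push Not at this
        exact this
      choose β hβ using h5
      have hinj : Function.Injective β := by
        intro k k' hkk
        by_contra hne
        have hd := hdisj (Sum.inr k) (Sum.inr k') (fun h => hne (Sum.inr.inj h))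
        exact Finset.disjoint_left.mp hd (hβ k) (hkk ▸ hβ k')
      have := Fintype.card_le_of_injective β hinj
      simp at this
    choose g hg using hex
    refine ⟨SimpleGraph.Coloring.mk g ?_⟩
    intro j j' hjj he
    have h5 := hg j
    have h6 := hg j'
    rw [← he] at h6
    rw [hN] at h5 h6
    have hx := hcL (Sum.inr (g j), ⟨(j, j'), hjj⟩)
    have hxS : c (Sum.inr (g j), ⟨(j, j'), hjj⟩) ∈ S (Sum.inr (g j)) := by
      rw [hS]
      exact ⟨_, rfl, rfl⟩
    rcases hx with hx | hx
    · apply h5 (c (Sum.inr (g j), ⟨(j, j'), hjj⟩)).2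
      rw [show (j, (c (Sum.inr (g j), ⟨(j, j'), hjj⟩)).2) = c (Sum.inr (g j), ⟨(j, j'), hjj⟩) from
        Prod.ext (show j = _ from hx.symm) rfl]
      exact hxS
    · apply h6 (c (Sum.inr (g j), ⟨(j, j'), hjj⟩)).2
      rw [show (j', (c (Sum.inr (g j), ⟨(j, j'), hjj⟩)).2) = c (Sum.inr (g j), ⟨(j, j'), hjj⟩) from
        Prod.ext (show j' = _ from hx.symm) rfl]
      exact hxS
  · refine Or.inr (Or.inl ⟨h4, ?_⟩)
    have h24 : 2 * a + b = 4 := by omega
    have hb : 0 < b := by omega
    let k₀ : Fin b := ⟨0, hb⟩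
    refine ⟨SimpleGraph.Coloring.mk
      (fun j => if ∃ β, (j, β) ∈ S (Sum.inr k₀) then (0 : Fin 2) else 1) ?_⟩
    intro j j' hjj he
    have hx := hcL (Sum.inr k₀, ⟨(j, j'), hjj⟩)
    have hxS : c (Sum.inr k₀, ⟨(j, j'), hjj⟩) ∈ S (Sum.inr k₀) := by
      rw [hS]
      exact ⟨_, rfl, rfl⟩
    have hor : (∃ β, (j, β) ∈ S (Sum.inr k₀)) ∨ ∃ β, (j', β) ∈ S (Sum.inr k₀) := by
      rcases hx with hx | hx
      · left
        refine ⟨(c (Sum.inr k₀, ⟨(j, j'), hjj⟩)).2, ?_⟩
        rw [show (j, (c (Sum.inr k₀, ⟨(j, j'), hjj⟩)).2) = c (Sum.inr k₀, ⟨(j, j'), hjj⟩) from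
          Prod.ext (show j = _ from hx.symm) rfl]
        exact hxS
      · right
        refine ⟨(c (Sum.inr k₀, ⟨(j, j'), hjj⟩)).2, ?_⟩
        rw [show (j', (c (Sum.inr k₀, ⟨(j, j'), hjj⟩)).2) = c (Sum.inr k₀, ⟨(j, j'), hjj⟩) from
          Prod.ext (show j' = _ from hx.symm) rfl]
        exact hxS
    have hboth : ¬ ((∃ β, (j, β) ∈ S (Sum.inr k₀)) ∧ ∃ β, (j', β) ∈ S (Sum.inr k₀)) := by
      rintro ⟨⟨β, hβ⟩, ⟨β', hβ'⟩⟩
      have h5 : 1 < (S (Sum.inr k₀) ∩ Q j j').card := by
        apply Finset.one_lt_card.mpr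
        refine ⟨(j, β), ?_, (j', β'), ?_, ?_⟩
        · exact Finset.mem_inter.mpr ⟨hβ, hQ _ _ _ (Or.inl rfl)⟩
        · exact Finset.mem_inter.mpr ⟨hβ', hQ _ _ _ (Or.inr rfl)⟩
        · intro h
          exact hjj.ne (congrArg Prod.fst h)
      have h6 := hXsum' j j' hjj k₀ h5
      have h7 := hFsum j j' hjj
      have h8 := hsum j j'
      rw [Fintype.sum_sum_type] at h8
      omega
    by_cases hj : ∃ β, (j, β) ∈ S (Sum.inr k₀)
    · have hj' : ¬ ∃ β, (j', β) ∈ S (Sum.inr k₀) := fun h => hboth ⟨hj, h⟩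
      rw [if_pos hj, if_neg hj'] at he
      exact absurd he (by decide)
    · have hj' : ∃ β, (j', β) ∈ S (Sum.inr k₀) := hor.resolve_left hj
      rw [if_neg hj, if_pos hj'] at he
      exact absurd he (by decide)

/-! ### The positive part -/

lemma block_acyclic {V : Type*} {G : SimpleGraph V} {a b : ℕ} {k : V → Fin a ⊕ Fin b}
    (h1 : ∀ i, (G.induce {v | k v = Sum.inl i}).IsAcyclic)
    (h2 : ∀ u v j, k u = Sum.inr j → k v = Sum.inr j → ¬ G.Adj u v)
    (B : Set V) (hB : ∀ u ∈ B, ∀ v ∈ B, k u = k v) : (G.induce B).IsAcyclic := by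
  rcases B.eq_empty_or_nonempty with rfl | ⟨u, hu⟩
  · exact matching_acyclic _ fun x => x.2.elim
  · cases hk : k u with
    | inl i =>
      have hsub : B ⊆ {v | k v = Sum.inl i} := fun v hv => (hB v hv u hu).trans hk
      exact (h1 i).embedding (SimpleGraph.induceHomOfLE G hsub)
    | inr j =>
      apply matching_acyclic
      intro x y z hxy _
      exact absurd hxy (h2 _ _ j ((hB _ x.2 u hu).trans hk) ((hB _ y.2 u hu).trans hk))

lemma partition_colorable {V : Type} [Finite V] {G : SimpleGraph V} {a b : ℕ}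
    (h : HasPartition G a b) : G.Colorable (2 * a + b) := by
  classical
  obtain ⟨k, h1, h2⟩ := h
  have hf : ∀ i, ∃ c : {v | k v = Sum.inl i} → Bool, ∀ u v,
      (G.induce {v | k v = Sum.inl i}).Adj u v → c u ≠ c v := by
    intro i
    obtain ⟨c, -, hc⟩ := forest_twoChoosable.{0, 0} _ (h1 i) Bool (fun _ => Set.univ) (by
      intro x
      rw [Set.ncard_univ]
      simp)
    exact ⟨c, hc⟩
  choose c hc using hf
  have hex : ∀ v, ∃ s : (Fin a × Bool) ⊕ Fin b, part s = k v ∧
      ∀ i (hi : k v = Sum.inl i), s = Sum.inl (i, c i ⟨v, hi⟩) := by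
    intro v
    have hcase : (∃ i, k v = Sum.inl i) ∨ ∃ j, k v = Sum.inr j := by
      rcases k v with i | j
      · exact Or.inl ⟨i, rfl⟩
      · exact Or.inr ⟨j, rfl⟩
    rcases hcase with ⟨i, hk⟩ | ⟨j, hk⟩
    · refine ⟨Sum.inl (i, c i ⟨v, hk⟩), by rw [hk]; rfl, ?_⟩
      intro i' hi'
      have : i = i' := Sum.inl.inj (hk.symm.trans hi')
      subst this
      rfl
    · refine ⟨Sum.inr j, by rw [hk]; rfl, ?_⟩
      intro i' hi'
      exact absurd (hk.symm.trans hi') (by simp)
  choose s hs1 hs2 using hex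
  have hcol : G.Coloring ((Fin a × Bool) ⊕ Fin b) := by
    refine SimpleGraph.Coloring.mk s ?_
    intro u v huv he
    have hkk : k u = k v := by rw [← hs1 u, ← hs1 v, he]
    cases hk : k u with
    | inl i =>
      have hv : k v = Sum.inl i := hkk ▸ hk
      have e1 := hs2 u i hk
      have e2 := hs2 v i hv
      rw [e1, e2] at he
      simp only [Sum.inl.injEq, Prod.mk.injEq, true_and] at he
      exact hc i ⟨u, hk⟩ ⟨v, hv⟩ huv he
    | inr j => exact h2 u v j hk (hkk ▸ hk) huv
  have := hcol.colorable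
  simpa [Fintype.card_sum, Fintype.card_prod, mul_comm] using this

lemma positive {V C I : Type} [Finite V] {P : Set (Set C)} {L : V → Set C}
    (h : PairStructured P L) (G : SimpleGraph V) (H : SimpleGraph I) (a b : ℕ)
    (hG : HasPartition G a b) (hL : Nonempty (listGraph P L →g H))
    (hab : a + b ≤ 2 ∨ (a = 0 ∧ b = 3 ∧ H.Colorable 3) ∨ (2 * a + b ≤ 4 ∧ H.Colorable 2) ∨
      H = ⊥) : ListColourable G L := by
  classical
  obtain ⟨f⟩ := hL
  rcases hab with hab | ⟨rfl, rfl, ⟨hH⟩⟩ | ⟨h4, ⟨hH⟩⟩ | rfl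
  · obtain ⟨k, h1, h2⟩ := hG
    have hcard : Fintype.card (Fin a ⊕ Fin b) ≤ Fintype.card Bool := by simpa using hab
    obtain ⟨t⟩ := Function.Embedding.nonempty_of_card_le hcard
    rw [colourable_iff h G]
    refine ⟨{v | t (k v) = true}, ?_, ?_⟩
    · refine forest_twoChoosable _ (block_acyclic h1 h2 _ ?_) _ _ fun v => pairs_ncard h _
      intro u hu v hv
      exact t.injective ((show t (k u) = true from hu).trans (show t (k v) = true from hv).symm)
    · refine forest_twoChoosable _ (block_acyclic h1 h2 _ ?_) _ _ fun v => pairs_ncard h _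
      intro u hu v hv
      have hu' : t (k u) = false := Bool.eq_false_iff.mpr hu
      have hv' : t (k v) = false := Bool.eq_false_iff.mpr hv
      exact t.injective (hu'.trans hv'.symm)
  · exact of_three h G (partition_colorable hG) ⟨hH.comp f⟩
  · exact of_four h G ((partition_colorable hG).mono h4) ⟨hH.comp f⟩
  · rcases isEmpty_or_nonempty V with hV | ⟨⟨v⟩⟩
    · exact ⟨fun x => (hV.false x).elim, fun x => (hV.false x).elim,
        fun x => (hV.false x).elim⟩
    · obtain ⟨p, hp, q, hq, hne, hLv⟩ := h.2.2 v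
      have hpv : p ∈ pairs P L v := by rw [pairs_eq h.1 hp hq hLv]; simp
      have hqv : q ∈ pairs P L v := by rw [pairs_eq h.1 hp hq hLv]; simp
      have := f.map_rel (list_adj hne hpv hqv)
      exact absurd this (by simp)

/-! ### Even pairs -/

lemma even_extend {V C : Type*} (G : SimpleGraph V) {P : Set (Set C)}
    {L : V → Set C} (h : PairStructured P L) (U : Set V)
    (hU : ∀ v ∈ U, ∀ p ∈ pairs P L v, OddPair G P L p)
    (hU' : ∀ v ∉ U, ∃ p ∈ pairs P L v, ¬ OddPair G P L p)
    (hr : ListColourable (G.induce U) (fun v => L v)) : ListColourable G L := by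
  classical
  obtain ⟨s, hs1, hs2⟩ := exists_sign h.1 h.2.1
  obtain ⟨c, hc, hcG⟩ := hr
  have hodd : ∀ (u : V) (hu : u ∈ U) (p : Set C), p ∈ P → c ⟨u, hu⟩ ∈ p → OddPair G P L p := by
    intro u hu p hp hcp
    obtain ⟨q, hq, r, hr, -, hL⟩ := h.2.2 u
    apply hU u hu
    have hcu : c ⟨u, hu⟩ ∈ q ∪ r := by rw [← hL]; exact hc ⟨u, hu⟩
    rw [pairs_eq h.1 hq hr hL]
    rcases hcu with h1 | h1
    · exact Or.inl (block_unique h.1 hp hq hcp h1)
    · exact Or.inr (block_unique h.1 hp hr hcp h1)
  -- the even pair of a vertex outside `U`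
  have hex : ∀ v, ∃ p, v ∉ U → p ∈ pairs P L v ∧ ¬ OddPair G P L p := by
    intro v
    by_cases hv : v ∈ U
    · exact ⟨∅, fun hh => absurd hv hh⟩
    · obtain ⟨p, hp, hp'⟩ := hU' v hv
      exact ⟨p, fun _ => ⟨hp, hp'⟩⟩
  choose e he using hex
  -- a 2-colouring for each even pair
  have hk : ∀ p : Set C, ∃ k : V → Fin 2, ¬ OddPair G P L p →
      ∀ u v, p ∈ pairs P L u → p ∈ pairs P L v → G.Adj u v → k u ≠ k v := by
    intro p
    by_cases hp : OddPair G P L p
    · exact ⟨fun _ => 0, fun hh => absurd hp hh⟩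
    · unfold OddPair at hp
      rw [not_not] at hp
      obtain ⟨k⟩ := hp
      refine ⟨fun v => if hv : p ∈ pairs P L v then k ⟨v, hv⟩ else 0, ?_⟩
      intro _ u v hu hv huv
      simp only [hu, hv, dite_true]
      exact k.valid huv
  choose k hk using hk
  have hcol : ∀ v, ∃ x, (∀ hv : v ∈ U, x = c ⟨v, hv⟩) ∧
      (v ∉ U → x ∈ e v ∧ s x = decide (k (e v) v = 0)) := by
    intro v
    by_cases hv : v ∈ U
    · exact ⟨c ⟨v, hv⟩, fun _ => rfl, fun hh => absurd hv hh⟩
    · obtain ⟨x, hx, hxs⟩ := hs1 (e v) (he v hv).1.1 (decide (k (e v) v = 0))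
      exact ⟨x, fun hh => absurd hh hv, fun _ => ⟨hx, hxs⟩⟩
  choose d hd1 hd2 using hcol
  refine ⟨d, ?_, ?_⟩
  · intro v
    by_cases hv : v ∈ U
    · rw [hd1 v hv]
      exact hc ⟨v, hv⟩
    · exact (he v hv).1.2 (hd2 v hv).1
  · intro u v huv hh
    by_cases hu : u ∈ U
    · by_cases hv : v ∈ U
      · apply hcG ⟨u, hu⟩ ⟨v, hv⟩ huv
        rw [← hd1 u hu, ← hd1 v hv, hh]
      · have h1 : c ⟨u, hu⟩ ∈ e v := by
          rw [← hd1 u hu, hh]
          exact (hd2 v hv).1
        exact (he v hv).2 (hodd u hu _ (he v hv).1.1 h1)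
    · by_cases hv : v ∈ U
      · have h1 : c ⟨v, hv⟩ ∈ e u := by
          rw [← hd1 v hv, ← hh]
          exact (hd2 u hu).1
        exact (he u hu).2 (hodd v hv _ (he u hu).1.1 h1)
      · have e1 : e u = e v :=
          block_unique h.1 (he u hu).1.1 (he v hv).1.1 (hd2 u hu).1 (hh ▸ (hd2 v hv).1)
        have e2 := (hd2 u hu).2
        have e3 := (hd2 v hv).2
        rw [hh, e3, e1, decide_eq_decide] at e2
        have e4 := hk (e v) (he v hv).2 u v (e1 ▸ (he u hu).1) (he v hv).1 huv
        have key : ∀ x y : Fin 2, (x = 0 ↔ y = 0) → y = x := by decide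
        exact e4 (key _ _ e2)

lemma positive_odd {V C I : Type} [Finite V] {P : Set (Set C)} {L : V → Set C}
    (h : PairStructured P L) (G : SimpleGraph V) (H : SimpleGraph I) (a b : ℕ)
    (hG : HasPartition G a b) (hL : Nonempty (oddListGraph G P L →g H))
    (hab : a + b ≤ 2 ∨ (a = 0 ∧ b = 3 ∧ H.Colorable 3) ∨ (2 * a + b ≤ 4 ∧ H.Colorable 2) ∨
      H = ⊥) : ListColourable G L := by
  classical
  obtain ⟨f⟩ := hL
  let U : Set V := {v | ∀ p ∈ pairs P L v, OddPair G P L p}
  refine even_extend G h U (fun v hv => hv) ?_ ?_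
  · intro v hv
    have hv' : ¬ ∀ p ∈ pairs P L v, OddPair G P L p := hv
    push Not at hv'
    exact hv'
  · have h' : PairStructured P (fun v : U => L v) := ⟨h.1, h.2.1, fun v => h.2.2 v⟩
    have hG' : HasPartition (G.induce U) a b := by
      obtain ⟨k, h1, h2⟩ := hG
      refine ⟨fun v => k v, ?_, fun u v j hu hv huv => h2 u v j hu hv huv⟩
      intro i
      refine (h1 i).comap (G := (G.induce U).induce {v : U | k v = Sum.inl i})
        ⟨fun x => ⟨x.1.1, x.2⟩, fun {_ _} hxy => hxy⟩ ?_
      intro x y hxy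
      exact Subtype.ext (Subtype.ext (congrArg (fun z => z.1) hxy))
    refine positive h' (G.induce U) H a b hG' ⟨⟨f, ?_⟩⟩ hab
    intro p q hpq
    apply f.map_rel
    rw [listGraph, SimpleGraph.fromRel_adj] at hpq
    rw [oddListGraph, SimpleGraph.fromRel_adj]
    obtain ⟨hne, hpq⟩ := hpq
    have main : ∀ p q : Set C, (∃ v : U, p ∈ pairs P (fun v : U => L v) v ∧
        q ∈ pairs P (fun v : U => L v) v) → OddPair G P L p ∧ OddPair G P L q ∧
        ∃ v, p ∈ pairs P L v ∧ q ∈ pairs P L v := by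
      rintro p q ⟨v, hp, hq⟩
      exact ⟨v.2 p hp, v.2 q hq, v, hp, hq⟩
    exact ⟨hne, hpq.imp (main p q) (main q p)⟩

/-! ### The result -/

/-- Let `H` be a finite graph.  Every finite graph whose vertex set is the union of `a` induced
forests and `b` independent sets can be coloured from all pair-structured lists whose list graph on
the odd pairs maps homomorphically to `H`, if and only if `a + b ≤ 2`, or `a = 0`, `b = 3` and `H`
is 3-colourable, or `2 a + b ≤ 4` and `H` is bipartite, or `H` has no edges. -/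
theorem result {I : Type} [Finite I] (H : SimpleGraph I) (a b : ℕ) :
    (∀ (V C : Type) [Finite V] (G : SimpleGraph V) (P : Set (Set C)) (L : V → Set C),
      PairStructured P L → HasPartition G a b → Nonempty (oddListGraph G P L →g H) →
        ListColourable G L) ↔
    (a + b ≤ 2 ∨ (a = 0 ∧ b = 3 ∧ H.Colorable 3) ∨ (2 * a + b ≤ 4 ∧ H.Colorable 2) ∨
      H = ⊥) := by
  constructor
  · intro hall
    by_cases hH : H = ⊥
    · exact Or.inr (Or.inr (Or.inr hH))
    by_cases hab : a + b = 0
    · left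
      omega
    have hl : ∀ x : ((Fin a × Bool) ⊕ Fin b) × {p : I × I // H.Adj p.1 p.2},
        H.Adj x.2.1.1 x.2.1.2 := fun x => x.2.2
    have : Nonempty (((Fin a × Bool) ⊕ Fin b) × {p : I × I // H.Adj p.1 p.2}) := by
      obtain ⟨j₀, j₀', hjj₀⟩ : ∃ j j', H.Adj j j' := by
        by_contra hno
        push Not at hno
        apply hH
        ext x y
        simp [hno x y]
      by_cases ha : 0 < a
      · exact ⟨(Sum.inl (⟨0, ha⟩, true), ⟨(j₀, j₀'), hjj₀⟩)⟩
      · exact ⟨(Sum.inr ⟨0, by omega⟩, ⟨(j₀, j₀'), hjj₀⟩)⟩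
    obtain ⟨f⟩ := std_hom H _ hl
    refine ext_not H a b (hall _ _ (extGraph H a b) (stdPairs I) (fun x => stdList x.2.1)
      (std_pair _ fun x => (hl x).ne) (ext_partition H a b) ⟨⟨f, ?_⟩⟩)
    intro p q hpq
    apply f.map_rel
    rw [oddListGraph, SimpleGraph.fromRel_adj] at hpq
    rw [listGraph, SimpleGraph.fromRel_adj]
    exact ⟨hpq.1, hpq.2.imp (fun hh => hh.2.2) fun hh => hh.2.2⟩
  · intro hab V C _ G P L h hG hL
    exact positive_odd h G H a b hG hL hab

end Pool.Agent.Results.MP_3ba6b1_co.ForestPartitions
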